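import Pool.Agent.H51.EI.TargetsC

/-!
# Board exi_modules, module RPK: large rational primes in the ring of integers
-/

set_option autoImplicit false

open Polynomial

namespace Pool.Agent.H54.EI.RPK

open Pool.Agent.H51.EI

/-- the property holds for every subfield -/
theorem rp_OI (K : Subfield ℂ) : RP (OI K) := by
  intro z hz
  have hint : IsIntegral ℤ (z : ℂ) := z.2.2
  have hz0 : (z : ℂ) ≠ 0 := fun h => hz (Subtype.ext h)
  set P : ℤ[X] := minpoly ℤ (z : ℂ) with hP
  have hc : P.coeff 0 ≠ 0 := by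
    intro h0
    have h1 := minpoly.isIntegrallyClosed_eq_field_fractions' ℚ hint
    have h2 := minpoly.coeff_zero_ne_zero (A := ℚ) hint.tower_top hz0
    rw [h1, coeff_map, ← hP, h0, map_zero] at h2
    exact h2 rfl
  have hPz : aeval (z : ℂ) P = 0 := minpoly.aeval ℤ _
  have hPO : aeval z P = 0 := by
    apply Subtype.ext
    have h1 : ((aeval z P : OI K) : ℂ) = aeval (z : ℂ) P := by
      rw [aeval_def, aeval_def]
      change (OI K).subtype (eval₂ (algebraMap ℤ (OI K)) z P) = _
      rw [hom_eval₂]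
      congr 1
    rw [h1, hPz]
    rfl
  set w : OI K := aeval z P.divX with hw
  have hzw : z * w = -((P.coeff 0 : ℤ) : OI K) := by
    have h1 := congrArg (aeval z) P.divX_mul_X_add
    rw [hPO, map_add, map_mul, aeval_X, aeval_C] at h1
    rw [mul_comm, hw]
    exact eq_neg_of_add_eq_zero_left h1
  refine ⟨(P.coeff 0).natAbs + 1, fun p hp hn a k h => ?_⟩
  have hcop : IsCoprime (p : ℤ) ((-(P.coeff 0)) ^ k) := by
    apply IsCoprime.pow_right
    rw [IsCoprime.neg_right_iff, Int.isCoprime_iff_gcd_eq_one, Int.gcd, Int.natAbs_natCast]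
    refine (Nat.Prime.coprime_iff_not_dvd hp).mpr fun hd => ?_
    have := Nat.le_of_dvd (Int.natAbs_pos.mpr hc) hd
    omega
  obtain ⟨u, v, huv⟩ := hcop
  have h2 : (p : OI K) ∣ a * ((-(P.coeff 0) : ℤ) : OI K) ^ k := by
    have h3 : ((-(P.coeff 0) : ℤ) : OI K) = z * w := by
      rw [hzw]
      push_cast
      rfl
    rw [h3, mul_pow, ← mul_assoc]
    exact Dvd.dvd.mul_right h _
  have h4 : a = p * (u * a) + v * (a * ((-(P.coeff 0) : ℤ) : OI K) ^ k) := by
    have h5 : ((u * (p : ℤ) + v * (-(P.coeff 0)) ^ k : ℤ) : OI K) = 1 := by rw [huv]; simp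
    push_cast at h5 ⊢
    calc a = (u * (p : OI K) + v * (-((P.coeff 0 : ℤ) : OI K)) ^ k) * a := by rw [h5, one_mul]
      _ = _ := by ring
  rw [h4]
  exact dvd_add (Dvd.intro _ rfl) (Dvd.dvd.mul_left h2 _)

theorem pf_RPK : T_RPK := fun K _ => rp_OI K

end Pool.Agent.H54.EI.RPK
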