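import Pool.Agent.H51.EI.TargetsD

/-!
# Board exi_modules, module GAU: Gauss lemma for content ideals over a Dedekind domain
-/

set_option autoImplicit false

open Polynomial

namespace Pool.Agent.H54.EI.GAU

open Pool.Agent.H51.EI

/-- the case of a principal ideal domain -/
theorem mul_pid (R : Type) [CommRing R] [IsDomain R] [IsPrincipalIdealRing R] (f g : R[X]) :
    (f * g).contentIdeal = f.contentIdeal * g.contentIdeal := by
  classical
  let : StrongNormalizationMonoid R := UniqueFactorizationMonoid.strongNormalizationMonoid
  let : StrongNormalizedGCDMonoid R := UniqueFactorizationMonoid.toStrongNormalizedGCDMonoid R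
  rw [(IsPrincipalIdealRing.principal
      (f * g).contentIdeal).contentIdeal_eq_span_content_of_isPrincipal,
    (IsPrincipalIdealRing.principal f.contentIdeal).contentIdeal_eq_span_content_of_isPrincipal,
    (IsPrincipalIdealRing.principal g.contentIdeal).contentIdeal_eq_span_content_of_isPrincipal,
    content_mul, Ideal.span_singleton_mul_span_singleton]

theorem pf_GAU : T_GAU := by
  intro R _ _ f g
  by_cases hR : IsField R
  · have := hR.isPrincipalIdealRing
    exact mul_pid R f g
  · refine Ideal.eq_of_localization_maximal fun P hP => ?_
    have hne : P ≠ ⊥ := Ring.ne_bot_of_isMaximal_of_not_isField hP hR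
    have := IsLocalization.AtPrime.isDiscreteValuationRing_of_dedekind_domain
      R hne (Localization.AtPrime P)
    rw [Ideal.map_mul, ← contentIdeal_map_eq_map_contentIdeal,
      ← contentIdeal_map_eq_map_contentIdeal, ← contentIdeal_map_eq_map_contentIdeal,
      Polynomial.map_mul, mul_pid]

end Pool.Agent.H54.EI.GAU
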