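import Pool.Agent.H70.EI.Targets

/-!
# MP_0f8dca_lc, module CNJ: conjunctions are gates
-/

set_option autoImplicit false

namespace Pool.Agent.H54.EI

open Finset Pool.Agent.H6.NB Pool.Agent.H70.OQ Pool.Agent.H70.EH Pool.Agent.H70.EI

open Classical in
theorem cnj (h1 : Pool.Agent.H6.NB.T_CLB) : Pool.Agent.H70.EI.T_CNJ := by
  intro X ι S d J g κ hS hJ hg
  obtain ⟨-, -, hgate, hgate2, -⟩ := h1 X S hS
  obtain ⟨f1, hf1, e1⟩ : ∃ f1 : (X → Bool) → Bool,
      (∀ y, f1 y = true ↔ ∃ i : {i // i ∈ J}, g i.1 y = !κ i.1) ∧ Cl X S (d + 1) f1 := by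
    refine ⟨fun y => decide (∃ i : {i // i ∈ J}, g i.1 y = !κ i.1), fun y => by simp, ?_⟩
    refine hgate d {i // i ∈ J} (fun i => g i.1) (fun i => !κ i.1) _ (by simpa using hJ)
      (fun i => hg i.1 i.2) fun y => ?_
    simp
  refine hgate2 (d + 1) [(f1, false)] _ (by simp; omega) (by
      intro p hp
      rw [List.mem_singleton] at hp
      subst hp
      exact e1) ?_
  intro y
  have key : (∀ i ∈ J, g i y = κ i) ↔ ¬ ∃ i : {i // i ∈ J}, g i.1 y = !κ i.1 := by
    constructor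
    · rintro h ⟨i, hi⟩
      rw [h i.1 i.2] at hi
      cases hk : κ i.1 <;> simp [hk] at hi
    · intro h i hi
      by_contra hne
      exact h ⟨⟨i, hi⟩, by cases hk : κ i <;> cases hgi : g i y <;> simp_all⟩
  rw [decide_eq_true_eq, key, ← hf1 y, Bool.not_eq_true]
  simp

end Pool.Agent.H54.EI
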